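import Mathlib.MeasureTheory.Measure.ContinuousPreimage
import Mathlib.MeasureTheory.Measure.Haar.Basic
import Mathlib.MeasureTheory.Group.Action
import Mathlib.LinearAlgebra.FiniteDimensional.Lemmas

/-!
# Functions of a finite dimensional invariant space vanishing on a set of positive measure

Helper file for MP_1fe969_ag (zero-one law). `vanish`: if a group acts continuously and measure preserving on `X` and
`R` is a finite dimensional invariant space of functions on `X`, then every measurable set of positive finite measure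
contains a measurable set `S'` of positive measure such that the ideal of functions of `R` vanishing on `S'` is
invariant under a neighbourhood of `1`.
`null_of_jump`: for a function `d` on a group whose sublevel sets are zero sets of functions of `R`, the set of points
at which `d` is not locally maximal is closed and null.
-/

set_option autoImplicit false

open MeasureTheory Filter Topology Set
open scoped symmDiff

namespace Pool.Agent.Helper54.ZO

/-- the functions of `R` vanishing on `S` -/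
def ideal {K X : Type*} [Field K] (R : Submodule K (X → K)) (S : Set X) : Submodule K (X → K) where
  carrier := {f | f ∈ R ∧ ∀ x ∈ S, f x = 0}
  add_mem' := by
    rintro f g ⟨hf, hf'⟩ ⟨hg, hg'⟩
    exact ⟨R.add_mem hf hg, fun x hx => by simp [hf' x hx, hg' x hx]⟩
  zero_mem' := ⟨R.zero_mem, fun x _ => rfl⟩
  smul_mem' := by
    rintro c f ⟨hf, hf'⟩
    exact ⟨R.smul_mem c hf, fun x hx => by simp [hf' x hx]⟩

lemma mem_ideal {K X : Type*} [Field K] {R : Submodule K (X → K)} {S : Set X} {f : X → K} :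
    f ∈ ideal R S ↔ f ∈ R ∧ ∀ x ∈ S, f x = 0 := Iff.rfl

lemma ideal_anti {K X : Type*} [Field K] {R : Submodule K (X → K)} {S T : Set X} (h : S ⊆ T) :
    ideal R T ≤ ideal R S := fun _ hf => ⟨hf.1, fun x hx => hf.2 x (h hx)⟩

lemma ideal_le {K X : Type*} [Field K] (R : Submodule K (X → K)) (S : Set X) : ideal R S ≤ R :=
  fun _ hf => hf.1

theorem vanish {K G X : Type*} [Field K] [Group G] [TopologicalSpace G] [TopologicalSpace X] [R1Space X]
    [MulAction G X] [ContinuousSMul G X] [MeasurableSpace X] [BorelSpace X] (μ : Measure X)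
    [IsLocallyFiniteMeasure μ] [μ.InnerRegularCompactLTTop] [SMulInvariantMeasure G X μ]
    (R : Submodule K (X → K)) [FiniteDimensional K R] (hR : ∀ g : G, ∀ f ∈ R, (fun x => f (g • x)) ∈ R)
    (S : Set X) (hSm : MeasurableSet S) (hS0 : μ S ≠ 0) (hSfin : μ S ≠ ⊤) :
    ∃ S' ⊆ S, MeasurableSet S' ∧ μ S' ≠ 0 ∧
      ∀ᶠ u in 𝓝 (1 : G), ∀ f ∈ R, (∀ x ∈ S', f x = 0) → ∀ x ∈ S', f (u • x) = 0 := by
  classical
  let P : Set ℕ := {n | ∃ S' ⊆ S, MeasurableSet S' ∧ μ S' ≠ 0 ∧ Module.finrank K (ideal R S') = n}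
  have hne : P.Nonempty := ⟨_, S, subset_rfl, hSm, hS0, rfl⟩
  have hfd : ∀ T : Set X, FiniteDimensional K (ideal R T) := fun T =>
    Submodule.finiteDimensional_of_le (ideal_le R T)
  have hbdd : BddAbove P := by
    refine ⟨Module.finrank K R, ?_⟩
    rintro n ⟨S', -, -, -, rfl⟩
    exact Submodule.finrank_mono (ideal_le R S')
  obtain ⟨S', hS'S, hS'm, hS'0, hn⟩ := Nat.sSup_mem hne hbdd
  have hS'fin : μ S' ≠ ⊤ := ne_top_of_le_ne_top hSfin (measure_mono hS'S)
  refine ⟨S', hS'S, hS'm, hS'0, ?_⟩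
  -- the translates
  let act : C(G, C(X, X)) := ContinuousMap.curry ⟨fun p : G × X => p.1 • p.2, continuous_smul⟩
  have h1 : Tendsto (fun u : G => act u) (𝓝 1) (𝓝 (act 1)) := act.continuous.tendsto 1
  have h2 : ∀ u : G, MeasurePreserving (act u) μ μ := fun u => measurePreserving_smul u μ
  have h3 := tendsto_measure_symmDiff_preimage_nhds_zero h1 (Eventually.of_forall h2) (h2 1)
    hS'm.nullMeasurableSet hS'fin
  have h4 : ∀ᶠ u in 𝓝 (1 : G), μ ((act u ⁻¹' S') ∆ (act 1 ⁻¹' S')) < μ S' :=
    h3.eventually_lt_const (pos_iff_ne_zero.2 hS'0)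
  filter_upwards [h4] with u hu
  have e1 : act 1 ⁻¹' S' = S' := by
    ext x
    simp [act]
  rw [e1] at hu
  have hT : μ (S' ∩ act u ⁻¹' S') ≠ 0 := by
    intro h0
    have h5 : μ S' ≤ μ ((act u ⁻¹' S') ∆ S') := by
      calc μ S' ≤ μ (S' ∩ act u ⁻¹' S') + μ (S' \ act u ⁻¹' S') := measure_le_inter_add_sdiff _ _ _
        _ = μ (S' \ act u ⁻¹' S') := by rw [h0, zero_add]
        _ ≤ μ ((act u ⁻¹' S') ∆ S') := measure_mono (by
            intro x hx
            exact Or.inr hx)
    exact absurd hu (not_lt.2 h5)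
  have hTm : MeasurableSet (S' ∩ act u ⁻¹' S') := hS'm.inter ((h2 u).measurable hS'm)
  have hle : ideal R S' ≤ ideal R (S' ∩ act u ⁻¹' S') := ideal_anti inter_subset_left
  have hmax : Module.finrank K (ideal R (S' ∩ act u ⁻¹' S')) ≤ Module.finrank K (ideal R S') := by
    rw [hn]
    exact le_csSup hbdd ⟨_, inter_subset_left.trans hS'S, hTm, hT, rfl⟩
  have := hfd (S' ∩ act u ⁻¹' S')
  have heq : ideal R S' = ideal R (S' ∩ act u ⁻¹' S') := Submodule.eq_of_le_of_finrank_le hle hmax
  intro f hf hf0 x hx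
  have h6 : (fun x => f (u • x)) ∈ ideal R (S' ∩ act u ⁻¹' S') :=
    ⟨hR u f hf, fun y hy => hf0 _ hy.2⟩
  rw [← heq] at h6
  exact h6.2 x hx

/-- Left translations. The points where `d` is not locally maximal form a closed null set. -/
theorem null_of_jump {K G : Type*} [Field K] [TopologicalSpace K] [T1Space K] [Group G] [TopologicalSpace G]
    [IsTopologicalGroup G] [MeasurableSpace G] [BorelSpace G] (μ : Measure G) [μ.IsMulLeftInvariant]
    [IsFiniteMeasure μ] [μ.InnerRegularCompactLTTop]
    (R : Submodule K (G → K)) [FiniteDimensional K R] (hR : ∀ g : G, ∀ f ∈ R, (fun x => f (g * x)) ∈ R)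
    (hc : ∀ f ∈ R, Continuous f) (d : G → ℕ) (F : ℕ → Set (G → K)) (hF : ∀ m, F m ⊆ R)
    (hd : ∀ m x, d x ≤ m ↔ ∀ f ∈ F m, f x = 0) :
    IsClosed {x : G | ∃ᶠ u in 𝓝 (1 : G), d x < d (u * x)} ∧
      μ {x : G | ∃ᶠ u in 𝓝 (1 : G), d x < d (u * x)} = 0 := by
  have hclosed : ∀ m, IsClosed {x : G | d x ≤ m} := by
    intro m
    have : {x : G | d x ≤ m} = ⋂ f ∈ F m, f ⁻¹' {0} := by
      ext x
      simp only [mem_ofPred_eq, mem_iInter, mem_preimage, mem_singleton_iff]
      exact hd m x
    rw [this]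
    exact isClosed_biInter fun f hf => isClosed_singleton.preimage (hc f (hF m hf))
  have hN : IsClosed {x : G | ∃ᶠ u in 𝓝 (1 : G), d x < d (u * x)} := by
    rw [← isOpen_compl_iff, isOpen_iff_mem_nhds]
    intro x hx
    rw [mem_compl_iff, mem_ofPred_eq, not_frequently] at hx
    -- `d` is constant equal to `d x` near `x`
    have h1 : ∀ᶠ u in 𝓝 (1 : G), d (u * x) = d x := by
      have h2 : ∀ᶠ y in 𝓝 x, d x ≤ d y := by
        rcases Nat.eq_zero_or_pos (d x) with h0 | h0
        · exact Eventually.of_forall fun y => by omega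
        · have h3 : {y : G | d y ≤ d x - 1}ᶜ ∈ 𝓝 x :=
            (hclosed _).isOpen_compl.mem_nhds (by
              rw [mem_compl_iff, mem_ofPred_eq]
              omega)
          filter_upwards [h3] with y hy
          rw [mem_compl_iff, mem_ofPred_eq] at hy
          omega
      have h4 : Tendsto (fun u : G => u * x) (𝓝 1) (𝓝 x) := by
        have : Continuous fun u : G => u * x := by fun_prop
        simpa using this.tendsto 1
      filter_upwards [h4.eventually h2, hx] with u hu1 hu2
      exact le_antisymm (not_lt.1 hu2) hu1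
    have h5 : ∀ᶠ y in 𝓝 x, ∀ᶠ z in 𝓝 y, d z = d x := by
      rw [eventually_eventually_nhds]
      have h6 : Tendsto (fun y : G => y * x⁻¹) (𝓝 x) (𝓝 1) := by
        have : Continuous fun y : G => y * x⁻¹ := by fun_prop
        simpa using this.tendsto x
      filter_upwards [h6.eventually h1] with y hy
      simpa using hy
    filter_upwards [h5] with y hy
    rw [mem_compl_iff, mem_ofPred_eq, not_frequently]
    have h7 : Tendsto (fun u : G => u * y) (𝓝 1) (𝓝 y) := by
      have : Continuous fun u : G => u * y := by fun_prop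
      simpa using this.tendsto 1
    filter_upwards [h7.eventually hy] with u hu
    rw [hu, hy.self_of_nhds]
    exact lt_irrefl _
  refine ⟨hN, ?_⟩
  by_contra hne
  -- some level set has positive measure
  have h1 : ∃ m, μ ({x : G | ∃ᶠ u in 𝓝 (1 : G), d x < d (u * x)} ∩ {x | d x ≤ m}) ≠ 0 := by
    by_contra hall
    push Not at hall
    refine hne (le_antisymm ?_ zero_le)
    calc μ {x : G | ∃ᶠ u in 𝓝 (1 : G), d x < d (u * x)}
        ≤ μ (⋃ m, ({x : G | ∃ᶠ u in 𝓝 (1 : G), d x < d (u * x)} ∩ {x | d x ≤ m})) := measure_mono (by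
          intro x hx
          exact mem_iUnion.2 ⟨d x, hx, le_refl (d x)⟩)
      _ ≤ ∑' m, μ ({x : G | ∃ᶠ u in 𝓝 (1 : G), d x < d (u * x)} ∩ {x | d x ≤ m}) := measure_iUnion_le _
      _ = 0 := by simp [hall]
  -- the least such level
  classical
  let m := Nat.find h1
  have hm := Nat.find_spec h1
  have hmin : μ ({x : G | ∃ᶠ u in 𝓝 (1 : G), d x < d (u * x)} ∩ {x | d x < m}) = 0 := by
    rcases Nat.eq_zero_or_pos m with h0 | h0
    · have : {x : G | d x < m} = ∅ := by
        ext x
        simp [h0]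
      rw [this, inter_empty, measure_empty]
    · have h2 := Nat.find_min h1 (Nat.sub_one_lt h0.ne')
      rw [not_not] at h2
      refine le_antisymm ?_ zero_le
      rw [← h2]
      refine measure_mono (inter_subset_inter_right _ fun x hx => ?_)
      rw [mem_ofPred_eq] at hx ⊢
      omega
  let S : Set G := ({x : G | ∃ᶠ u in 𝓝 (1 : G), d x < d (u * x)} ∩ {x | d x ≤ m}) \ {x | d x < m}
  have hlt : MeasurableSet {x : G | d x < m} := by
    rcases Nat.eq_zero_or_pos m with h0 | h0
    · have : {x : G | d x < m} = ∅ := by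
        ext x
        simp [h0]
      rw [this]
      exact MeasurableSet.empty
    · have : {x : G | d x < m} = {x : G | d x ≤ m - 1} := by
        ext x
        simp only [mem_ofPred_eq]
        omega
      rw [this]
      exact (hclosed _).measurableSet
  have hSm : MeasurableSet S := ((hN.measurableSet.inter (hclosed m).measurableSet)).diff hlt
  have hS0 : μ S ≠ 0 := by
    intro h0
    refine hm (le_antisymm ?_ zero_le)
    calc μ ({x : G | ∃ᶠ u in 𝓝 (1 : G), d x < d (u * x)} ∩ {x | d x ≤ m})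
        ≤ μ (({x : G | ∃ᶠ u in 𝓝 (1 : G), d x < d (u * x)} ∩ {x | d x < m}) ∪ S) := measure_mono (by
          intro x hx
          by_cases h : d x < m
          · exact Or.inl ⟨hx.1, h⟩
          · exact Or.inr ⟨hx, h⟩)
      _ ≤ μ ({x : G | ∃ᶠ u in 𝓝 (1 : G), d x < d (u * x)} ∩ {x | d x < m}) + μ S := measure_union_le _ _
      _ = 0 := by rw [hmin, h0, add_zero]
  obtain ⟨S', hS'S, -, hS'0, hS'⟩ := vanish (G := G) μ R hR S hSm hS0 (measure_ne_top μ S)
  have hne' : S'.Nonempty := nonempty_of_measure_ne_zero hS'0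
  obtain ⟨x, hx⟩ := hne'
  have hxS := hS'S hx
  have hzero : ∀ f ∈ F m, ∀ y ∈ S', f y = 0 := fun f hf y hy => (hd m y).1 (hS'S hy).1.2 f hf
  have h8 : ∀ᶠ u in 𝓝 (1 : G), d (u * x) ≤ m := by
    filter_upwards [hS'] with u hu
    rw [hd]
    intro f hf
    exact hu f (hF m hf) (hzero f hf) x hx
  have h9 : d x = m := le_antisymm hxS.1.2 (not_lt.1 hxS.2)
  obtain ⟨u, hu1, hu2⟩ := (hxS.1.1.and_eventually h8).exists
  omega

end Pool.Agent.Helper54.ZO
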